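import Pool.Agent.W997.NL.Stm2

/-!
Project NL (helper997), MP_d19090_lc: the program which evaluates all nodes.
-/

set_option autoImplicit false

namespace Pool.Agent.W790.NLPROG

open Finset
open Pool.Agent.W997.SR (Dag)
open Pool.Agent.W997.SR.Dag (value value_eq)
open Pool.Agent.W997.TS (DBP)

/-- a topological enumeration -/
theorem exists_enum (G : Dag) : ∃ e : Fin (Fintype.card G.Γ) ≃ G.Γ,
    ∀ j, ∀ c ∈ G.kid (e j), e.symm c < j := by
  let e0 : G.Γ ≃ Fin (Fintype.card G.Γ) := Fintype.equivFin G.Γ
  let f : Fin (Fintype.card G.Γ) → ℕ := fun i => G.rk (e0.symm i)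
  let σ : Equiv.Perm (Fin (Fintype.card G.Γ)) := Tuple.sort f
  have hσ : Monotone (f ∘ σ) := Tuple.monotone_sort f
  refine ⟨σ.trans e0.symm, fun j c hc => ?_⟩
  by_contra hcon
  rw [not_lt] at hcon
  have h1 : f (σ j) ≤ f (σ ((σ.trans e0.symm).symm c)) := hσ hcon
  have h2 : f (σ ((σ.trans e0.symm).symm c)) = G.rk c := by
    show G.rk ((σ.trans e0.symm) ((σ.trans e0.symm).symm c)) = G.rk c
    rw [Equiv.apply_symm_apply]
  have h3 : G.rk c < G.rk ((σ.trans e0.symm) j) := G.kid_lt _ c hc
  have h4 : f (σ j) = G.rk ((σ.trans e0.symm) j) := rfl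
  omega

/-- the program -/
abbrev prog (G : Dag) (k : ℕ) [NeZero k] (F : (G.Γ → Fin k) → Bool)
    (e : Fin (Fintype.card G.Γ) ≃ G.Γ) (j0 : Fin (Fintype.card G.Γ)) : DBP (G.Var k) k where
  State := Fin (Fintype.card G.Γ) × (G.Γ → Fin k)
  start := (j0, fun _ => 0)
  query := fun s => (e s.1, ∑ c ∈ G.kid (e s.1), s.2 c)
  next := fun s a => if h : s.1.val + 1 < Fintype.card G.Γ then
      Sum.inl (⟨s.1.val + 1, h⟩, Function.update s.2 (e s.1) a)
    else Sum.inr (F (Function.update s.2 (e s.1) a))

theorem run_aux (G : Dag) (k : ℕ) [NeZero k] (F : (G.Γ → Fin k) → Bool)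
    (e : Fin (Fintype.card G.Γ) ≃ G.Γ) (he : ∀ j, ∀ c ∈ G.kid (e j), e.symm c < j)
    (j0 : Fin (Fintype.card G.Γ)) (x : G.Var k → Fin k) : ∀ (d : ℕ)
    (j : Fin (Fintype.card G.Γ)) (w : G.Γ → Fin k), j.val + d + 1 = Fintype.card G.Γ →
    (∀ c, e.symm c < j → w c = value x c) →
    ∃ l : List (prog G k F e j0).State, l.length = d ∧
      (prog G k F e j0).IsPath x (j, w) l (F (value x)) ∧
      ((((j, w) : (prog G k F e j0).State) :: l).map (prog G k F e j0).query).Nodup ∧
      ∀ s ∈ ((j, w) : (prog G k F e j0).State) :: l, j ≤ s.1 := by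
  intro d
  induction d with
  | zero =>
    intro j w hj hw
    have hval : x ((prog G k F e j0).query (j, w)) = value x (e j) := by
      rw [value_eq x (e j)]
      show x (e j, ∑ c ∈ G.kid (e j), w c) = _
      rw [sum_congr rfl fun c hc => hw c (he j c hc)]
    refine ⟨[], rfl, ?_, by simp, ?_⟩
    · show (prog G k F e j0).next (j, w) (x ((prog G k F e j0).query (j, w))) = _
      rw [hval]
      have hnl : ¬ j.val + 1 < Fintype.card G.Γ := by omega
      simp only [hnl, dite_false]
      congr 2
      funext c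
      by_cases hc : c = e j
      · rw [hc, Function.update_self]
      · rw [Function.update_of_ne hc]
        apply hw
        have h1 : e.symm c ≠ j := fun h => hc (by rw [← h, Equiv.apply_symm_apply])
        have h2 := (e.symm c).isLt
        have h3 : (e.symm c).val ≠ j.val := fun h => h1 (Fin.ext h)
        rw [Fin.lt_def]
        omega
    · intro s hs
      rw [List.mem_singleton] at hs
      rw [hs]
  | succ d ih =>
    intro j w hj hw
    have hlt : j.val + 1 < Fintype.card G.Γ := by omega
    have hval : x ((prog G k F e j0).query (j, w)) = value x (e j) := by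
      rw [value_eq x (e j)]
      show x (e j, ∑ c ∈ G.kid (e j), w c) = _
      rw [sum_congr rfl fun c hc => hw c (he j c hc)]
    obtain ⟨l, hl, hp, hn, hs⟩ := ih ⟨j.val + 1, hlt⟩ (Function.update w (e j) (value x (e j)))
      (by show j.val + 1 + d + 1 = _; omega) (by
        intro c hc
        by_cases hce : c = e j
        · rw [hce, Function.update_self]
        · rw [Function.update_of_ne hce]
          apply hw
          have h1 : e.symm c ≠ j := fun h => hce (by rw [← h, Equiv.apply_symm_apply])
          have h3 : (e.symm c).val ≠ j.val := fun h => h1 (Fin.ext h)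
          have h4 : (e.symm c).val < j.val + 1 := hc
          rw [Fin.lt_def]
          omega)
    refine ⟨(⟨j.val + 1, hlt⟩, Function.update w (e j) (value x (e j))) :: l,
      by rw [List.length_cons, hl], ⟨?_, hp⟩, ?_, ?_⟩
    · rw [hval]
      simp only [hlt, dite_true]
    · rw [List.map_cons, List.nodup_cons]
      refine ⟨?_, hn⟩
      intro hmem
      rw [List.mem_map] at hmem
      obtain ⟨s, hs1, hs2⟩ := hmem
      have h1 := hs s hs1
      have h2 : e s.1 = e j := congrArg Prod.fst hs2
      have h3 : s.1 = j := e.injective h2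
      rw [h3, Fin.le_def] at h1
      have h4 : j.val + 1 ≤ j.val := h1
      omega
    · intro s hs1
      rcases List.mem_cons.1 hs1 with rfl | hs2
      · exact le_rfl
      · have h1 := hs s hs2
        rw [Fin.le_def] at h1 ⊢
        have h2 : j.val + 1 ≤ s.1.val := h1
        omega

theorem main : Pool.Agent.W997.NL.S_PROG := by
  intro G k _ F hne
  obtain ⟨e, he⟩ := exists_enum G
  have hpos : 0 < Fintype.card G.Γ := Fintype.card_pos
  refine ⟨prog G k F e ⟨0, hpos⟩, ?_, fun x => ?_⟩
  · show Fintype.card (Fin (Fintype.card G.Γ) × (G.Γ → Fin k)) ≤ _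
    rw [Fintype.card_prod, Fintype.card_fin, Fintype.card_fun, Fintype.card_fin]
  · obtain ⟨l, hl, hp, hn, -⟩ := run_aux G k F e he ⟨0, hpos⟩ x (Fintype.card G.Γ - 1)
      ⟨0, hpos⟩ (fun _ => 0) (by show 0 + _ + 1 = _; omega) (by
        intro c hc
        exact absurd hc (Nat.not_lt_zero _))
    have hlen : (((⟨0, hpos⟩, fun _ => 0) : (prog G k F e ⟨0, hpos⟩).State) :: l).length =
        Fintype.card G.Γ := by
      rw [List.length_cons, hl]; omega
    refine ⟨l, hp, hlen, ?_⟩
    rw [List.toFinset_card_of_nodup hn, List.length_map]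
    exact hlen

end Pool.Agent.W790.NLPROG
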