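import Pool.Agent.W894.HT.MDefs
import Pool.Agent.W505.HTClean

/-!
Project HM, part WCLEAN: only the clean paths contribute to the signed sum.
-/

set_option autoImplicit false

namespace Pool.Agent.W790.HMWclean

open Pool.Agent.W894.HT Pool.Agent.W505.HTClean

open Classical in
theorem wstep (hG : S_WGAD) (hW : S_GW) (S : Stg) (τ : ℕ → Bool) (P : Finset (List Nm))
    (hP : ∀ l, l ∈ P ↔ isP S l)
    (H : Finset (ℕ × Bool × ℕ × Lb)) (hH : ∀ h ∈ H, h ∈ gads S)
    (g : ℕ × Bool × ℕ × Lb) (hg : g ∈ gads S) (hgH : g ∉ H) :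
    ∑ l ∈ P.filter (fun l => ∀ h ∈ H, cln h l), cw (gw (sE S τ)) l =
      ∑ l ∈ (P.filter fun l => ∀ h ∈ H, cln h l).filter (fun l => cln g l),
        cw (gw (sE S τ)) l := by
  obtain ⟨k, α, i, a⟩ := g
  have hmem : ∀ l, l ∈ P.filter (fun l => ∀ h ∈ H, cln h l) ↔ isP S l ∧ ∀ h ∈ H, cln h l := by
    intro l
    rw [Finset.mem_filter, hP]
  have hdiff : ∀ h ∈ H, ¬ (k = h.1 ∧ α = h.2.1 ∧ i = h.2.2.1) := by
    rintro ⟨k', α', i', a'⟩ hh ⟨rfl, rfl, rfl⟩
    have := gads_inj hg (hH _ hh)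
    subst this
    exact hgH hh
  -- adjacency
  have ea1 := adS_of hg (u := sh a) (v := xv k α i) (by simp [gE])
  have ea2 := adS_of hg (u := sh a) (v := yv k α i) (by simp [gE])
  have ea3 := adS_of hg (u := yv k α i) (v := xv k α i) (by simp [gE])
  have ea4 := adS_of hg (u := rv k α i) (v := rv k α (i + 1)) (by simp [gE])
  have ea5 := adS_of hg (u := rv k α i) (v := yv k α i) (by simp [gE])
  have ea6 := adS_of hg (u := xv k α i) (v := rv k α (i + 1)) (by simp [gE])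
  -- one toggle
  have T1 : ∀ (u v z : Nm), adS S u v = true → adS S u z = true → adS S z v = true →
      (z = xv k α i ∨ z = yv k α i) →
      (∃ a, (u = sh a ∧ (v = xv k α i ∨ v = yv k α i)) ∨
        (v = sh a ∧ (u = xv k α i ∨ u = yv k α i))) → ∀ A B : List Nm,
      (A ++ u :: v :: B ∈ P.filter (fun l => ∀ h ∈ H, cln h l) ∧ z ∉ A ++ u :: v :: B) ↔
        A ++ u :: z :: v :: B ∈ P.filter (fun l => ∀ h ∈ H, cln h l) := by
    intro u v z h1 h2 h3 hz huv A B
    rw [hmem, hmem]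
    have key := isP_toggle h1 h2 h3 A B
    have hc : isP S (A ++ u :: z :: v :: B) → ∀ h ∈ H,
        (cln h (A ++ u :: v :: B) ↔ cln h (A ++ u :: z :: v :: B)) := by
      rintro hp ⟨k', α', i', a'⟩ hh
      exact cln_toggle (hdiff _ hh) (w := [z]) (by simp)
        (by intro z' hz'; rw [List.mem_singleton] at hz'; exact hz' ▸ hz) (Or.inr (Or.inr huv)) hp.1
    constructor
    · rintro ⟨⟨h4, h5⟩, h6⟩
      have h7 := key.1 ⟨h4, h6⟩
      exact ⟨h7, fun h hh => (hc h7 h hh).1 (h5 h hh)⟩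
    · rintro ⟨h4, h5⟩
      have h7 := key.2 h4
      exact ⟨⟨h7.1, fun h hh => (hc h4 h hh).2 (h5 h hh)⟩, h7.2⟩
  have T2 : ∀ (u v z w : Nm), adS S u v = true → adS S u z = true → adS S z w = true →
      adS S w v = true → z ≠ w → (z = xv k α i ∨ z = yv k α i) → (w = xv k α i ∨ w = yv k α i) →
      ((u = rv k α i ∧ v = rv k α (i + 1)) ∨ (u = rv k α (i + 1) ∧ v = rv k α i)) →
      ∀ A B : List Nm,
      (A ++ u :: v :: B ∈ P.filter (fun l => ∀ h ∈ H, cln h l) ∧ z ∉ A ++ u :: v :: B ∧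
        w ∉ A ++ u :: v :: B) ↔
        A ++ u :: z :: w :: v :: B ∈ P.filter (fun l => ∀ h ∈ H, cln h l) := by
    intro u v z w h1 h2 h3 h3' hzw hz hw huv A B
    rw [hmem, hmem]
    have key := isP_toggle2 h1 h2 h3 h3' hzw A B
    have hc : isP S (A ++ u :: z :: w :: v :: B) → ∀ h ∈ H,
        (cln h (A ++ u :: v :: B) ↔ cln h (A ++ u :: z :: w :: v :: B)) := by
      rintro hp ⟨k', α', i', a'⟩ hh
      refine cln_toggle (hdiff _ hh) (w := [z, w]) (by simp) ?_ ?_ hp.1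
      · intro z' hz'
        rw [List.mem_cons, List.mem_singleton] at hz'
        rcases hz' with rfl | rfl
        · exact hz
        · exact hw
      · rcases huv with h | h
        · exact Or.inl h
        · exact Or.inr (Or.inl h)
    constructor
    · rintro ⟨⟨h4, h5⟩, h6⟩
      have h7 := key.1 ⟨h4, h6⟩
      exact ⟨h7, fun h hh => (hc h7 h hh).1 (h5 h hh)⟩
    · rintro ⟨h4, h5⟩
      have h7 := key.2 h4
      exact ⟨⟨h7.1, fun h hh => (hc h4 h hh).2 (h5 h hh)⟩, h7.2⟩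
  obtain ⟨w1, -, -, w4⟩ := hW S τ
  obtain ⟨g1, g2, g3, g4, g5, g6⟩ := w4 _ hg
  simp only at g1 g2 g3 g4 g5 g6
  have main := hG Nm (P.filter fun l => ∀ h ∈ H, cln h l) (gw (sE S τ)) (rv k α i)
    (rv k α (i + 1)) (sh a) (xv k α i) (yv k α i) (by simp [rv, xv, yv, sh]) w1
    (by rw [g1, g2, g3]; norm_num)
    (by rw [g3, w1 (xv k α i) (yv k α i), g2, g1]; norm_num)
    (by rw [g4, g5, g2, g6]; norm_num)
    (fun l hl => ((hmem l).1 hl).1.1)
    (by
      intro l hl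
      obtain ⟨⟨_, h1, h2, _⟩, _⟩ := (hmem l).1 hl
      rw [h1, h2]
      simp [hub, xv, yv])
    (by
      intro l hl b hb
      have hp := ((hmem l).1 hl).1
      apply nb_xv hg
      rcases hb with hb | hb
      · exact adS_of_pair hp hb
      · rw [adS_symm]
        exact adS_of_pair hp hb)
    (by
      intro l hl b hb
      have hp := ((hmem l).1 hl).1
      apply nb_yv hg
      rcases hb with hb | hb
      · exact adS_of_pair hp hb
      · rw [adS_symm]
        exact adS_of_pair hp hb)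
    (T1 _ _ _ ea2.2 ea3.1 ea1.2 (Or.inl rfl) ⟨a, Or.inr ⟨rfl, Or.inr rfl⟩⟩)
    (T1 _ _ _ ea2.1 ea1.1 ea3.2 (Or.inl rfl) ⟨a, Or.inl ⟨rfl, Or.inr rfl⟩⟩)
    (T1 _ _ _ ea1.2 ea3.2 ea2.2 (Or.inr rfl) ⟨a, Or.inr ⟨rfl, Or.inl rfl⟩⟩)
    (T1 _ _ _ ea1.1 ea2.1 ea3.1 (Or.inr rfl) ⟨a, Or.inl ⟨rfl, Or.inl rfl⟩⟩)
    (by
      intro A B
      have := T2 _ _ _ _ ea4.1 ea5.1 ea3.1 ea6.1 (by simp [xv, yv]) (Or.inr rfl) (Or.inl rfl)
        (Or.inl ⟨rfl, rfl⟩) A B
      rw [← this]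
      tauto)
    (by
      intro A B
      have := T2 _ _ _ _ ea4.2 ea6.2 ea3.2 ea5.2 (by simp [xv, yv]) (Or.inl rfl) (Or.inr rfl)
        (Or.inr ⟨rfl, rfl⟩) A B
      rw [← this])
  exact main

theorem main (h1 : S_WGAD) (h2 : S_GW) : S_WCLEAN := by
  classical
  intro S τ P _ hP
  have key : ∀ H : Finset (ℕ × Bool × ℕ × Lb), (∀ h ∈ H, h ∈ gads S) →
      ∑ l ∈ P, cw (gw (sE S τ)) l =
        ∑ l ∈ P.filter (fun l => ∀ h ∈ H, cln h l), cw (gw (sE S τ)) l := by
    intro H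
    induction H using Finset.induction_on with
    | empty =>
      intro _
      refine Finset.sum_congr ?_ fun _ _ => rfl
      ext l
      simp
    | insert g H hg ih =>
      intro hH
      rw [ih fun h hh => hH h (Finset.mem_insert_of_mem hh)]
      have h3 := wstep h1 h2 S τ P hP H (fun h hh => hH h (Finset.mem_insert_of_mem hh)) g
        (hH g (Finset.mem_insert_self _ _)) hg
      rw [Finset.filter_filter] at h3
      convert h3 using 2
      ext l
      simp only [Finset.mem_filter, Finset.mem_insert, forall_eq_or_imp]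
      tauto
  rw [key (gads S).toFinset fun h hh => List.mem_toFinset.1 hh]
  refine Finset.sum_congr ?_ fun _ _ => rfl
  ext l
  simp only [Finset.mem_filter, List.mem_toFinset]

end Pool.Agent.W790.HMWclean
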