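import Pool.Agent.W886.PM.Stm0

/-!
# PM-ADV: the classes with advice and a reduction (helper790, for helper886)
-/

set_option autoImplicit false

namespace Pool.Agent.W790.PMADV

open Pool.Agent.NPC Pool.Agent.H620R2.Gauge Pool.Agent.H943R6.MC Pool.Agent.H622R2
open Pool.Agent.H622R2.Ckt Finset
open Pool.Agent.W886.PM

/-- the nondeterministic class is closed under polynomial-time reductions -/
theorem isNP_precomp {A : Oracle} {L : Set (List Bool)} (h : IsNP A L)
    {g : List Bool → List Bool} (hg : Poly g) : IsNP A {y | g y ∈ L} := by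
  obtain ⟨V, p, hV, hL⟩ := h
  obtain ⟨q, hq⟩ := hg.sz_le
  have h1 : Poly (fun z : List Bool => (unpair z).1) := Poly.fst poly_unpair
  have h2 : Poly (fun z : List Bool => g (unpair z).2) := hg.comp (Poly.snd poly_unpair)
  have h3 : UPoly (fun z : List Bool => p.eval (g (unpair z).2).length) :=
    UPoly.eval (UPoly.length h2) p
  have h4 : Poly (fun z : List Bool =>
      (unpair z).1.zip (List.replicate (p.eval (g (unpair z).2).length) ())) := Poly.zip h1 h3
  have h5 : Poly (fun z : List Bool =>
      ((unpair z).1.zip (List.replicate (p.eval (g (unpair z).2).length) ())).map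
        (fun u => u.1)) :=
    NPC.Poly.map (F := fun _ u => u.1) h4 (Poly.fst (Poly.snd Poly.id))
  refine ⟨fun z => V (pairBits
      (((unpair z).1.zip (List.replicate (p.eval (g (unpair z).2).length) ())).map
        (fun u => u.1)) (g (unpair z).2)),
    p.comp (q.comp (Polynomial.C 4 * Polynomial.X + Polynomial.C 1)),
    hV.precomp (poly_pairBits h5 h2), fun x => ?_⟩
  have key : ∀ w : List Bool, (fun z => V (pairBits
      (((unpair z).1.zip (List.replicate (p.eval (g (unpair z).2).length) ())).map
        (fun u => u.1)) (g (unpair z).2))) (pairBits w x) =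
      V (pairBits (w.take (p.eval (g x).length)) (g x)) := by
    intro w
    simp only [unpair_pairBits, U2.map_fst_zip_replicate]
  have hb : p.eval (g x).length ≤
      (p.comp (q.comp (Polynomial.C 4 * Polynomial.X + Polynomial.C 1))).eval x.length := by
    rw [Polynomial.eval_comp]
    apply eval_mono
    have h3 := length_lt_sz (g x)
    have h4 := hq x
    rw [Polynomial.eval_comp]
    refine h3.le.trans (h4.trans (eval_mono _ ?_))
    have h5 := sz_listBool_le x
    simpa using h5
  show g x ∈ L ↔ _
  rw [hL (g x)]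
  constructor
  · rintro ⟨w, hw, h⟩
    refine ⟨w, hw.trans hb, ?_⟩
    rw [key, List.take_of_length_le hw]
    exact h
  · rintro ⟨w, _, h⟩
    rw [key] at h
    exact ⟨w.take (p.eval (g x).length), by simp, h⟩

theorem poly_lift (c : ℕ) : Poly (lift c) := by
  have h1 : Poly (fun z : List Bool => (unpair z).1) := Poly.fst poly_unpair
  have h2 : Poly (fun z : List Bool => (unpair z).2) := Poly.snd poly_unpair
  have h3 : Poly (fun z : List Bool => (unpair z).1.map (fun _ => true)) :=
    NPC.Poly.map (F := fun _ _ => true) h1 (NPC.Poly.const true)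
  exact (poly_pairBits (poly_pairBits h1 h3)
    (Poly.append h2 (NPC.Poly.const (List.replicate c true)))).congr fun z => rfl

/-- the length of the images -/
def ll (c j : ℕ) : ℕ := 2 * (2 * 2 ^ (2 * j) + 1 + 2 ^ (2 * j)) + 1 + (H943R6.MC.sz j + c)

theorem length_lift (c j : ℕ) (T : Fin (2 ^ (2 * j)) → Bool) :
    (lift c (inst j T)).length = ll c j := by
  unfold lift inst ll
  rw [unpair_pairBits, H620R2.Gauge.length_pairBits, H620R2.Gauge.length_pairBits]
  simp

theorem ll_le (c j : ℕ) : ll c j ≤ 3 * len j + c := by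
  unfold ll len
  omega

theorem len_inj {i j : ℕ} (h : len i = len j) : i = j := by
  have key : ∀ a b : ℕ, a < b → len a < len b := by
    intro a b hab
    unfold len H943R6.MC.sz
    have h1 : 2 ^ (2 * a) ≤ 2 ^ (2 * b) := Nat.pow_le_pow_right (by norm_num) (by omega)
    have h2 : 2 ^ a ≤ 2 ^ b := Nat.pow_le_pow_right (by norm_num) hab.le
    omega
  rcases lt_trichotomy i j with h1 | h1 | h1
  · exact absurd h (key _ _ h1).ne
  · exact h1
  · exact absurd h (key _ _ h1).ne'

open Classical in
/-- the new advice -/
noncomputable def adv (c : ℕ) (h : ℕ → List Bool) (m : ℕ) : List Bool :=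
  if H : ∃ j, len j = m then h (ll c H.choose) else []

theorem adv_len (c : ℕ) (h : ℕ → List Bool) (j : ℕ) : adv c h (len j) = h (ll c j) := by
  have H : ∃ i, len i = len j := ⟨j, rfl⟩
  have h1 : H.choose = j := len_inj H.choose_spec
  unfold adv
  rw [dif_pos H, h1]

theorem adv_le (c : ℕ) (h : ℕ → List Bool) (p : Polynomial ℕ)
    (hh : ∀ n, (h n).length ≤ p.eval n) (n : ℕ) :
    (adv c h n).length ≤ (p.comp (Polynomial.C 3 * Polynomial.X + Polynomial.C c)).eval n := by
  unfold adv
  by_cases H : ∃ j, len j = n
  · rw [dif_pos H]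
    refine (hh _).trans ?_
    rw [Polynomial.eval_comp]
    apply eval_mono
    have h1 := ll_le c H.choose
    rw [H.choose_spec] at h1
    simpa using h1
  · rw [dif_neg H]
    simp

theorem task : Pool.Agent.W886.PM.S_ADV := by
  intro A L c hadv
  obtain ⟨L0, h, p, hL0, hh, hx⟩ := hadv
  refine ⟨{z | pairBits (lift c (unpair z).1) (unpair z).2 ∈ L0}, adv c h,
    p.comp (Polynomial.C 3 * Polynomial.X + Polynomial.C c),
    isNP_precomp hL0 (g := fun z => pairBits (lift c (unpair z).1) (unpair z).2)
      (poly_pairBits ((poly_lift c).comp (Poly.fst poly_unpair)) (Poly.snd poly_unpair)),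
    adv_le c h p hh, fun j T => ?_⟩
  show _ ↔ pairBits (lift c (unpair (pairBits (inst j T) _)).1)
    (unpair (pairBits (inst j T) _)).2 ∈ L0
  rw [adv_len, unpair_pairBits]
  have h2 := hx (lift c (inst j T))
  rw [length_lift] at h2
  exact h2

end Pool.Agent.W790.PMADV
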