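import Pool.Agent.W988.RA.Defs

/-!
Project RA, part FIN: the frozen statement from the parts.
-/

set_option autoImplicit false

open MeasureTheory
open scoped ENNReal BigOperators

namespace Pool.Agent.W790.RA_FIN

open Pool.Agent.W988.RA

/-- vector with given coordinates -/
theorem dt_eq {n : ℕ} (u : EuclideanSpace ℝ (Fin n) ≃ₗ[ℝ] EuclideanSpace ℝ (Fin n))
    (η : OrthonormalBasis (Fin n) ℝ (EuclideanSpace ℝ (Fin n))) (ε : Fin n → Bool)
    (w : Fin n → ℝ) :
    dt ε (mulV (fun k j : Fin n => inner ℝ (η k) (u.symm (EuclideanSpace.single j (1 : ℝ)))) w) =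
      inner ℝ (∑ i, (if ε i then (1:ℝ) else -1) • η i) (u.symm (WithLp.toLp 2 w)) := by
  have h1 : (WithLp.toLp 2 w : EuclideanSpace ℝ (Fin n)) =
      ∑ j, w j • EuclideanSpace.single j (1 : ℝ) := by
    ext k
    simp [Finset.sum_apply, Pi.single_apply]
  rw [h1, map_sum, sum_inner]
  unfold dt mulV sg
  refine Finset.sum_congr rfl fun k _ => ?_
  rw [real_inner_smul_left, inner_sum]
  congr 1
  refine Finset.sum_congr rfl fun j _ => ?_
  rw [map_smul, real_inner_smul_right, mul_comm]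

theorem av_mono {n : ℕ} {f g : (Fin n → Bool) → ℝ} (h : ∀ ε, f ε ≤ g ε) : av f ≤ av g := by
  unfold av
  exact div_le_div_of_nonneg_right (Finset.sum_le_sum fun ε _ => h ε) (by positivity)

theorem av_pos {n : ℕ} {f : (Fin n → Bool) → ℝ} (h : ∀ ε, 0 < f ε) : 0 < av f := by
  unfold av
  exact div_pos (Finset.sum_pos (fun ε _ => h ε) Finset.univ_nonempty) (by positivity)

theorem dtm_smul {n : ℕ} (c : ℝ) (M : MM n) : dtm (c • M) = |c| ^ n * dtm M := by
  unfold dtm
  have : Matrix.of (c • M) = c • Matrix.of M := rfl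
  rw [this, Matrix.det_smul, abs_mul, abs_pow, Fintype.card_fin]

theorem result (hS : S_SEL) (hH : S_HOL) (hN : S_NVP) (hL : S_LA) (hR : S_RVP) : S_FIN := by
  rintro ⟨C₀, hC₀⟩
  set C := max C₀ 0 with hC
  have hC0 : 0 ≤ C := le_max_right _ _
  have hpi := Real.pi_pos
  have he := Real.exp_pos 1
  set θ := 4 / (9 * Real.pi * Real.exp 1 * (C + 1)) with hθ
  have hθ0 : 0 < θ := by positivity
  obtain ⟨n, V, hn, hV, hPV, hsel⟩ := hS θ hθ0
  obtain ⟨p1, p2, p3, p4, p5⟩ := hN n (2 * n) V hn hV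
  obtain ⟨-, -, -, r4, -, -, -, r8, -⟩ := hR
  have hn0 : (0 : ℝ) < n := by exact_mod_cast hn
  have hzero : ∀ x : Fin n → ℝ, NV V x = 0 → x = 0 := by
    intro x hx
    have h1 := p1 x
    rw [hx] at h1
    have h2 : ∑ k, x k ^ 2 = 0 := by
      have h3 : 0 ≤ ∑ k, x k ^ 2 := Finset.sum_nonneg fun k _ => sq_nonneg _
      have h4 : Real.sqrt (∑ k, x k ^ 2) = 0 := le_antisymm h1 (Real.sqrt_nonneg _)
      exact (Real.sqrt_eq_zero h3).1 h4
    funext k
    have h3 := (Finset.sum_eq_zero_iff_of_nonneg fun k _ => sq_nonneg (x k)).1 h2 k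
      (Finset.mem_univ k)
    simpa using h3
  have hNVpos : ∀ x : Fin n → ℝ, x ≠ 0 → 0 < NV V x := by
    intro x hx
    have h1 : 0 ≤ NV V x := (Real.sqrt_nonneg _).trans (p1 x)
    exact lt_of_le_of_ne h1 fun h => hx (hzero x h.symm)
  obtain ⟨u, e, η, hle⟩ := hC₀ n (fun x => NV V (fun k => x k)) (by
      intro x hx
      have := hzero _ hx
      ext k
      exact congrFun this k) (by
      intro c x
      exact p2 c fun k => x k) (by
      intro x y
      exact p3 (fun k => x k) fun k => y k)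
  set M : MM n := fun k j => inner ℝ (η k) (u.symm (EuclideanSpace.single j (1 : ℝ))) with hM
  set E : MM n := fun k j => (u (e j)) k with hE
  have hLA : dtm M * dtm E = 1 := hL n u e η
  set ρ : ℝ := av fun ε : Fin n → Bool => NV V (mulV E (sg ε)) with hρ
  set r : ℝ := (∑ ε : Fin n → Bool,
          sSup ((fun x : EuclideanSpace ℝ (Fin n) =>
              |inner ℝ (∑ i, (if ε i then (1:ℝ) else -1) • η i) (u.symm x)|)
            '' {x | NV V (fun k => x k) ≤ 1})) / 2 ^ n with hr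
  have hmul : ∀ z : Fin n → ℝ, (fun k => (∑ j, z j • u (e j)) k) = mulV E z := by
    intro z
    funext k
    unfold mulV
    simp only [hE]
    rw [WithLp.ofLp_sum, Finset.sum_apply]
    refine Finset.sum_congr rfl fun j _ => ?_
    rw [WithLp.ofLp_smul, Pi.smul_apply, smul_eq_mul, mul_comm]
  have hρ' : (∑ ε : Fin n → Bool, NV V (fun k => (∑ i, (if ε i then (1:ℝ) else -1) • u (e i)) k))
      / 2 ^ n = ρ := by
    rw [hρ]
    unfold av
    congr 1
    refine Finset.sum_congr rfl fun ε _ => ?_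
    show _ = NV V (mulV E (sg ε))
    rw [← hmul (sg ε)]
    rfl
  have hle' : ρ * r ≤ C * n := by
    have h1 : ρ * r ≤ C₀ * n := by
      rw [← hρ']
      exact hle
    exact h1.trans (mul_le_mul_of_nonneg_right (le_max_left _ _) hn0.le)
  -- determinants
  have hM0 : 0 ≤ dtm M := abs_nonneg _
  have hE0 : 0 ≤ dtm E := abs_nonneg _
  have hMpos : 0 < dtm M := by
    rcases hM0.eq_or_lt with h | h
    · rw [← h] at hLA; simp at hLA
    · exact h
  have hEpos : 0 < dtm E := by
    rcases hE0.eq_or_lt with h | h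
    · rw [← h] at hLA; simp at hLA
    · exact h
  have hdetE : Matrix.det (Matrix.of E) ≠ 0 := by
    intro h
    unfold dtm at hEpos
    rw [h] at hEpos
    simp at hEpos
  -- boundedness
  have hbdd : ∀ a : EuclideanSpace ℝ (Fin n), BddAbove ((fun x : EuclideanSpace ℝ (Fin n) =>
      |inner ℝ a (u.symm x)|) '' {x | NV V (fun k => x k) ≤ 1}) := by
    intro a
    set T := LinearMap.toContinuousLinearMap
      (u.symm : EuclideanSpace ℝ (Fin n) →ₗ[ℝ] EuclideanSpace ℝ (Fin n)) with hT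
    refine ⟨‖a‖ * (‖T‖ * 1), ?_⟩
    rintro _ ⟨x, hx, rfl⟩
    have h1 : ‖x‖ ≤ 1 := by
      rw [EuclideanSpace.norm_eq]
      have h2 := (p1 fun k => x k).trans hx
      simpa only [Real.norm_eq_abs, sq_abs] using h2
    have h2 : ‖u.symm x‖ ≤ ‖T‖ * 1 := by
      have h3 : u.symm x = T x := rfl
      rw [h3]
      exact (T.le_opNorm x).trans (mul_le_mul_of_nonneg_left h1 (norm_nonneg _))
    calc |inner ℝ a (u.symm x)| ≤ ‖a‖ * ‖u.symm x‖ := abs_real_inner_le_norm _ _
      _ ≤ ‖a‖ * (‖T‖ * 1) := mul_le_mul_of_nonneg_left h2 (norm_nonneg _)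
  -- RV V M ≤ r
  have hne : Nonempty (Fin n ⊕ Fin (2 * n)) := ⟨Sum.inl ⟨0, hn⟩⟩
  have hA : RV V M ≤ r := by
    rw [hr]
    unfold RV
    refine av_mono (g := fun ε => sSup ((fun x : EuclideanSpace ℝ (Fin n) =>
              |inner ℝ (∑ i, (if ε i then (1:ℝ) else -1) • η i) (u.symm x)|)
            '' {x | NV V (fun k => x k) ≤ 1})) ?_
    intro ε
    refine ciSup_le fun i => ?_
    refine le_csSup (hbdd _) ⟨WithLp.toLp 2 (wv V i), ?_, ?_⟩
    · exact p4 i
    · show |_| = |_|
      rw [hM, dt_eq u η ε (wv V i)]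
  set R := RV V M with hRdef
  have hR0 : 0 ≤ R := by
    refine le_trans ?_ (r8 n (2 * n) V M (Sum.inl ⟨0, hn⟩))
    unfold av
    exact div_nonneg (Finset.sum_nonneg fun ε _ => abs_nonneg _) (by positivity)
  have hRpos : 0 < R := by
    rcases hR0.eq_or_lt with h | h
    · exfalso
      have h1 : ∀ c : ℝ, |c| ^ n * dtm M ≤ θ ^ n := by
        intro c
        rw [← dtm_smul]
        apply hsel
        rw [r4, ← hRdef, ← h, mul_zero]
        exact zero_le_one
      have h2 := h1 (1 + (θ ^ n + 1) / dtm M)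
      have h3 : 1 ≤ 1 + (θ ^ n + 1) / dtm M := by
        have : 0 ≤ (θ ^ n + 1) / dtm M := by positivity
        linarith
      rw [abs_of_pos (by linarith)] at h2
      have h4 : 1 + (θ ^ n + 1) / dtm M ≤ (1 + (θ ^ n + 1) / dtm M) ^ n := by
        calc 1 + (θ ^ n + 1) / dtm M = (1 + (θ ^ n + 1) / dtm M) ^ 1 := (pow_one _).symm
          _ ≤ _ := pow_le_pow_right₀ h3 hn
      have h5 : (1 + (θ ^ n + 1) / dtm M) * dtm M ≤ θ ^ n :=
        (mul_le_mul_of_nonneg_right h4 hMpos.le).trans h2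
      have h6 : (1 + (θ ^ n + 1) / dtm M) * dtm M = dtm M + θ ^ n + 1 := by
        field_simp
        ring
      linarith
    · exact h
  have hdM : dtm M ≤ (θ * R) ^ n := by
    have h1 := hsel (R⁻¹ • M) (by
      rw [r4, ← hRdef, abs_of_pos (inv_pos.2 hRpos), inv_mul_cancel₀ hRpos.ne'])
    rw [dtm_smul, abs_of_pos (inv_pos.2 hRpos)] at h1
    rw [mul_pow]
    have h2 : dtm M = R ^ n * ((R⁻¹) ^ n * dtm M) := by
      rw [← mul_assoc, ← mul_pow, mul_inv_cancel₀ hRpos.ne', one_pow, one_mul]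
    rw [h2, mul_comm (θ ^ n)]
    exact mul_le_mul_of_nonneg_left h1 (by positivity)
  have hrpos : 0 < r := hRpos.trans_le hA
  have hdM' : dtm M ≤ (θ * r) ^ n :=
    hdM.trans (pow_le_pow_left₀ (by positivity) (mul_le_mul_of_nonneg_left hA hθ0.le) _)
  -- ρ > 0
  have hEinj : ∀ z : Fin n → ℝ, mulV E z = 0 → z = 0 := by
    intro z hz
    have : Matrix.mulVec (Matrix.of E) z = 0 := by
      rw [← hz]
      rfl
    exact Matrix.eq_zero_of_mulVec_eq_zero hdetE this
  have hρpos : 0 < ρ := by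
    rw [hρ]
    refine av_pos fun ε => hNVpos _ fun h => ?_
    have h1 := hEinj _ h
    have h2 := congrFun h1 ⟨0, hn⟩
    unfold sg at h2
    split_ifs at h2 <;> norm_num at h2
  -- volume
  have hhol := hH n (fun z => NV V (mulV E z)) hn (fun z hz => hEinj z (hzero _ hz)) (by
      intro c z
      have : mulV E (c • z) = c • mulV E z := by
        funext k
        unfold mulV
        rw [Pi.smul_apply, smul_eq_mul, Finset.mul_sum]
        refine Finset.sum_congr rfl fun j _ => ?_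
        rw [Pi.smul_apply, smul_eq_mul]
        ring
      rw [this, p2]) (by
      intro z w
      have : mulV E (z + w) = mulV E z + mulV E w := by
        funext k
        unfold mulV
        rw [Pi.add_apply, ← Finset.sum_add_distrib]
        refine Finset.sum_congr rfl fun j _ => ?_
        rw [Pi.add_apply]
        ring
      rw [this]
      exact p3 _ _)
  rw [← hρ] at hhol
  have hvol : volume {z : Fin n → ℝ | NV V (mulV E z) < 1} =
      ENNReal.ofReal (dtm M) * volume {x | NV V x < 1} := by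
    have h1 := Measure.addHaar_preimage_linearMap (volume : Measure (Fin n → ℝ))
      (f := Matrix.toLin' (Matrix.of E)) (by rwa [LinearMap.det_toLin'])
      {x | NV V x < 1}
    rw [LinearMap.det_toLin'] at h1
    have h2 : |(Matrix.det (Matrix.of E))⁻¹| = dtm M := by
      rw [abs_inv]
      show (dtm E)⁻¹ = dtm M
      exact (eq_inv_of_mul_eq_one_left hLA).symm
    rw [h2] at h1
    exact h1
  rw [hvol] at hhol
  have hy : 0 < 1 / 2 * (8 / 9 : ℝ) ^ n := by positivity
  have hN1 : volume {x | NV V x < 1} ≤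
      ENNReal.ofReal ((2 * Real.pi * Real.exp 1 / n) ^ n / (1 / 2 * (8 / 9) ^ n)) := by
    rw [ENNReal.ofReal_div_of_pos hy, ENNReal.le_div_iff_mul_le
      (Or.inl (ENNReal.ofReal_pos.2 hy).ne') (Or.inl ENNReal.ofReal_ne_top)]
    exact (mul_le_mul_right hPV _).trans p5
  have hfin : (2 / ρ) ^ n ≤ dtm M * ((2 * Real.pi * Real.exp 1 / n) ^ n / (1 / 2 * (8 / 9) ^ n)) := by
    have h1 := hhol.trans (mul_le_mul_right hN1 _)
    rw [← ENNReal.ofReal_mul hM0] at h1
    exact (ENNReal.ofReal_le_ofReal_iff (by positivity)).1 h1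
  have hfin2 : (2 / ρ) ^ n ≤ (9 * Real.pi * Real.exp 1 * θ * r / (2 * n)) ^ n := by
    calc (2 / ρ) ^ n ≤ dtm M * ((2 * Real.pi * Real.exp 1 / n) ^ n / (1 / 2 * (8 / 9) ^ n)) := hfin
      _ ≤ (θ * r) ^ n * ((2 * Real.pi * Real.exp 1 / n) ^ n / (1 / 2 * (8 / 9) ^ n)) :=
        mul_le_mul_of_nonneg_right hdM' (by positivity)
      _ = 2 * (9 * Real.pi * Real.exp 1 * θ * r / (4 * n)) ^ n := by
        have e1 : (2 * Real.pi * Real.exp 1 / n) ^ n / (1 / 2 * (8 / 9 : ℝ) ^ n) =
            2 * (9 / 8 * (2 * Real.pi * Real.exp 1 / n)) ^ n := by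
          rw [mul_pow, show (9 / 8 : ℝ) = (8 / 9)⁻¹ by norm_num, inv_pow]
          field_simp
        rw [e1, mul_left_comm, ← mul_pow]
        congr 2
        field_simp
        ring
      _ ≤ 2 ^ n * (9 * Real.pi * Real.exp 1 * θ * r / (4 * n)) ^ n := by
        refine mul_le_mul_of_nonneg_right ?_ (by positivity)
        calc (2 : ℝ) = 2 ^ 1 := (pow_one _).symm
          _ ≤ 2 ^ n := pow_le_pow_right₀ (by norm_num) hn
      _ = (9 * Real.pi * Real.exp 1 * θ * r / (2 * n)) ^ n := by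
        rw [← mul_pow]
        congr 1
        field_simp
        ring
  have hfin3 : 2 / ρ ≤ 9 * Real.pi * Real.exp 1 * θ * r / (2 * n) :=
    le_of_pow_le_pow_left₀ hn.ne' (by positivity) hfin2
  rw [div_le_div_iff₀ hρpos (by positivity)] at hfin3
  have h7 : 9 * Real.pi * Real.exp 1 * θ * (C + 1) = 4 := by
    rw [hθ]
    field_simp
  have h8 : 2 * (2 * (n : ℝ)) * (C + 1) ≤ 4 * (ρ * r) := by
    calc 2 * (2 * (n : ℝ)) * (C + 1) ≤ (9 * Real.pi * Real.exp 1 * θ * r * ρ) * (C + 1) :=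
          mul_le_mul_of_nonneg_right hfin3 (by positivity)
      _ = (9 * Real.pi * Real.exp 1 * θ * (C + 1)) * (ρ * r) := by ring
      _ = 4 * (ρ * r) := by rw [h7]
  nlinarith

end Pool.Agent.W790.RA_FIN
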